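import Mathlib
import Pool.Agent.helper58.FI.SpecC

/-!
# Project fi (MP_baa4d7_al), block F: row FRA

Frattini argument for the subpairs contained in `(D, b)`.
-/

set_option autoImplicit false

namespace Pool.Agent.FI

open Pool.Agent.helper58.DC Pool.Agent.DI Pool.Agent.GR Pool.Agent.OB Pool.Agent.DR

theorem FRA_cz_fix {G : Type} [Group G] [Finite G] (hIF : IF_stmt) {H : Subgroup G} {ψ : G → ℂ}
    (hψ : ψ ∈ IrrOn H) {c : G} (hc : c ∈ H) : cjF c ψ = ψ := by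
  funext x
  rw [cjF_apply]
  have h1 := ((hIF G H).2 ψ hψ).2.1 c⁻¹ (H.inv_mem hc) x
  rwa [inv_inv] at h1

theorem FRA_cz_le_nz {G : Type} [Group G] (D : Subgroup G) : cz D ≤ nz D := by
  intro c hc
  rw [Subgroup.mem_centralizer_iff] at hc
  rw [Subgroup.mem_normalizer_iff]
  intro d
  constructor
  · intro hd
    have h1 : c * d * c⁻¹ = d := by
      rw [← hc d hd]
      group
    rw [h1]
    exact hd
  · intro hd
    have h1 := hc _ hd
    have h2 : d = c * d * c⁻¹ := by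
      have h3 : c⁻¹ * (c * d * c⁻¹ * c) * c⁻¹ = c⁻¹ * (c * (c * d * c⁻¹)) * c⁻¹ := by rw [h1]
      have h4 : c⁻¹ * (c * d * c⁻¹ * c) * c⁻¹ = d * c⁻¹ := by group
      have h5 : c⁻¹ * (c * (c * d * c⁻¹)) * c⁻¹ = c * d * c⁻¹ * c⁻¹ := by group
      have h6 : d * c⁻¹ = c * d * c⁻¹ * c⁻¹ := by
        rw [← h4, h3, h5]
      exact mul_right_cancel h6
    rw [h2]
    exact hd

theorem FRA (hFEQ : FEQ_stmt) (hFSI : FSI_stmt) (hIF : IF_stmt) : FRA_stmt := by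
  intro p M hS G _ _ D x θ χ lo P hPD
  have hth : θ ∈ IrrOn (cz D) := lo.rt.th
  have hT1 : cz D ≤ TT M D θ := by
    intro c hc
    refine ⟨FRA_cz_le_nz D hc, ?_⟩
    have h1 : funMap (MulAut.conj c) θ = θ := FRA_cz_fix hIF hth hc
    rw [h1]
    exact SB.refl _ _
  have hczle : cz D ≤ cz P := Subgroup.centralizer_le hPD
  have hDle : D ≤ cz P := by
    intro d hd
    rw [Subgroup.mem_centralizer_iff]
    intro u hu
    exact lo.rt.com u (hPD hu) d hd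
  have key : ∀ n ∈ nz P, cjS n P = P ∧ cjS n (cz P) = cz P := by
    intro n hn
    have h := (hFEQ G M n 1 P P P θ θ χ).2.1
    have h1 : cjS n P = P := h.2.2.2.1.2 hn
    refine ⟨h1, ?_⟩
    rw [← h.1, h1]
  have keyI : ∀ n ∈ nz P, ∀ ψ ∈ IrrOn (cz P), cjF n ψ ∈ IrrOn (cz P) := by
    intro n hn ψ hψ
    have h := (hFEQ G M n 1 P P (cz P) θ ψ χ).2.2.2.1.1 hψ
    rwa [(key n hn).2] at h
  have keyS : ∀ n ∈ nz P, ∀ η ψ : G → ℂ, SB M (cz P) η ψ → SB M (cz P) (cjF n η) (cjF n ψ) := by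
    intro n hn η ψ hψ
    have h := (hFEQ G M n 1 P P (cz P) η ψ χ).2.2.2.2.1.1 hψ
    rwa [(key n hn).2] at h
  refine ⟨⟨hT1, hczle, hDle, ?_⟩, ?_, ?_⟩
  · intro hP
    apply le_antisymm
    · rintro t ⟨ht, htP⟩
      obtain ⟨u, hu, hu1⟩ : ∃ u : G, u ∈ P ∧ u ≠ 1 := by
        by_contra hcon
        refine hP ((Subgroup.eq_bot_iff_forall P).2 fun u hu => ?_)
        by_contra hu1
        exact hcon ⟨u, hu, hu1⟩
      refine lo.free t ht u (hPD hu) hu1 ?_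
      have h1 : t ∈ cz P := htP
      rw [Subgroup.mem_centralizer_iff] at h1
      exact (h1 u hu).symm
    · exact le_inf hT1 hczle
  · intro n hn ψ hψ hnψ
    obtain ⟨e1, e2, -, e4, -⟩ := hFEQ G M n 1 D D (cz D) θ θ χ
    have h1 : IsPGroup p (cjS n D) := lo.rt.dfa.pgrp.map _
    have h2 : P ≤ cjS n D := by
      have h := (hFEQ G M n 1 P D (cz D) θ θ χ).2.1.2.2.1.2 hPD
      rwa [(key n hn).1] at h
    have h3 : cjF n θ ∈ IrrOn (cz (cjS n D)) := by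
      rw [e2.1]
      exact e4.1 hth
    have h4 : SB M (cz P) (cjF n ψ) (cjF n θ) := keyS n hn ψ θ hψ.2
    have h5 : SB M (cz P) (cjF n θ) ψ := (h4.symm.trans hnψ.2).trans hψ.2.symm
    obtain ⟨l, hl, hl1, hl2⟩ := lo.cnj P hPD ψ hψ.1 hψ.2.symm (cjS n D) h1 h2 e2.2.2.2.2.2
      (cjF n θ) h3 h5
    refine ⟨l, hl, ?_, ?_⟩
    · have h6 := (hFEQ G M l n D D (cz D) θ θ χ).1.1
      have h7 := (hFEQ G M (l * n) 1 D D (cz D) θ θ χ).2.1.2.2.2.1
      exact h7.1 (h6.symm.trans hl1)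
    · have h6 := (hFEQ G M l n D D (cz D) θ θ χ).1.2.1
      rw [h6] at hl2
      exact hl2
  · intro t ht htP ψ hψ
    refine ⟨keyI t htP ψ hψ.1, ?_⟩
    have h1 : SB M (cz P) (cjF t ψ) (cjF t θ) := keyS t htP ψ θ hψ.2
    have htD : t ∈ nz D := ht.1
    have h2 : SB M (cz D) (cjF t θ) θ := ht.2
    have h3 : cjF t θ ∈ IrrOn (cz D) := by
      obtain ⟨-, e2, -, e4, -⟩ := hFEQ G M t 1 D D (cz D) θ θ χ
      have h := e4.1 hth
      rwa [← e2.1, e2.2.2.2.1.2 htD] at h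
    have h4 : SB M (cz P) (cjF t θ) θ :=
      (hFSI p M hS G (cz D) (cz P) (cjF t θ) θ).1 hczle h3.1 hth.1 h2
    exact h1.trans h4

end Pool.Agent.FI
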