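import Pool.Agent.helper22.FI.SpecA

/-!
# Project fi (MP_baa4d7_al), block A1: row BET (the inertial index is prime to `p`)
-/

set_option autoImplicit false

namespace Pool.Agent.FI

open Pool.Agent.helper58.DC Pool.Agent.DI Pool.Agent.GR Pool.Agent.OB

open Classical in
theorem BET_mem_sum {G : Type} [Fintype G] (S : Set G) (f : G → ℂ) :
    ∑ᶠ n ∈ S, f n = ∑ n : G, if n ∈ S then f n else 0 := by
  rw [finsum_mem_def, finsum_eq_sum_of_fintype]
  refine Finset.sum_congr rfl fun n _ => ?_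
  rw [Set.indicator_apply]

open Classical in
theorem BET_cnt {G : Type} [Group G] [Fintype G] (H : Subgroup G) (x y : G) :
    (∑ n : G, if n ∈ H ∧ n * x * n⁻¹ = y then (1 : ℂ) else 0) = (Nat.card (Cz H x) : ℂ) * cls H x y := by
  unfold cls
  split_ifs with h
  · obtain ⟨l, hl, e⟩ := h
    have h1 : ∀ c : G, (l * c ∈ H ∧ l * c * x * (l * c)⁻¹ = y) ↔ c ∈ Cz H x := by
      intro c
      have h2 : l * c ∈ H ↔ c ∈ H := Subgroup.mul_mem_cancel_left H hl
      have h3 : l * c * x * (l * c)⁻¹ = y ↔ c ∈ Subgroup.centralizer {x} := by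
        rw [← e, Subgroup.mem_centralizer_singleton_iff]
        constructor
        · intro h4
          have h5 : l * (c * x * c⁻¹) * l⁻¹ = l * x * l⁻¹ := by
            rw [← h4]
            group
          have h6 : c * x * c⁻¹ = x := mul_left_cancel (mul_right_cancel h5)
          calc c * x = c * x * c⁻¹ * c := by group
            _ = x * c := by rw [h6]
        · intro h4
          calc l * c * x * (l * c)⁻¹ = l * (c * x) * c⁻¹ * l⁻¹ := by group
            _ = l * x * l⁻¹ := by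
              rw [h4]
              group
      rw [h2, h3]
      exact Iff.rfl
    rw [← Equiv.sum_comp (Equiv.mulLeft l)]
    have h4 : ∀ c : G, (if Equiv.mulLeft l c ∈ H ∧ Equiv.mulLeft l c * x * (Equiv.mulLeft l c)⁻¹ = y
        then (1 : ℂ) else 0) = if c ∈ Cz H x then 1 else 0 := by
      intro c
      refine if_congr ?_ rfl rfl
      rw [Equiv.coe_mulLeft]
      exact h1 c
    rw [Finset.sum_congr rfl fun c _ => h4 c, Finset.sum_ite, Finset.sum_const_zero, add_zero,
      Finset.sum_const, nsmul_eq_mul, mul_one, mul_one, Nat.card_eq_fintype_card]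
    congr 1
    rw [Fintype.card_subtype]
  · rw [mul_zero]
    refine Finset.sum_eq_zero fun n _ => ?_
    rw [if_neg]
    rintro ⟨h1, h2⟩
    exact h ⟨n, h1, h2⟩

theorem BET_orb {G : Type} [Group G] [Finite G] (H : Subgroup G) (x : G) (f : G → ℂ) :
    ∑ᶠ n ∈ (H : Set G), f (n * x * n⁻¹) = (Nat.card (Cz H x) : ℂ) * ∑ᶠ y, cls H x y * f y := by
  classical
  let _ : Fintype G := Fintype.ofFinite G
  rw [BET_mem_sum, finsum_eq_sum_of_fintype, Finset.mul_sum]
  have h1 : ∀ y : G, (Nat.card (Cz H x) : ℂ) * (cls H x y * f y) =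
      ∑ n : G, if n ∈ H ∧ n * x * n⁻¹ = y then f y else 0 := by
    intro y
    rw [← mul_assoc, ← BET_cnt, Finset.sum_mul]
    refine Finset.sum_congr rfl fun n _ => ?_
    split_ifs <;> simp
  rw [Finset.sum_congr rfl fun y _ => h1 y, Finset.sum_comm]
  refine Finset.sum_congr rfl fun n _ => ?_
  by_cases hn : n ∈ H
  · rw [if_pos (show n ∈ (H : Set G) from hn), Finset.sum_eq_single (n * x * n⁻¹)]
    · rw [if_pos ⟨hn, rfl⟩]
    · intro y _ hy
      rw [if_neg]
      rintro ⟨-, h3⟩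
      exact hy h3.symm
    · intro h3
      exact absurd (Finset.mem_univ _) h3
  · rw [if_neg (show n ∉ (H : Set G) from hn)]
    refine (Finset.sum_eq_zero fun y _ => ?_).symm
    rw [if_neg]
    rintro ⟨h3, -⟩
    exact hn h3

/-- double sum over `N` and `C` -/
theorem BET_dbl {G : Type} [Group G] [Finite G] (C N : Subgroup G) (hCN : C ≤ N) (x : G) (θ : G → ℂ) :
    ∑ᶠ n ∈ (N : Set G), ∑ᶠ c ∈ (C : Set G), θ (n⁻¹ * (c * x * c⁻¹) * n) =
      (Nat.card C : ℂ) * ∑ᶠ n ∈ (N : Set G), θ (n * x * n⁻¹) := by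
  classical
  let _ : Fintype G := Fintype.ofFinite G
  have h0 : ∀ n : G, ∑ᶠ c ∈ (C : Set G), θ (n⁻¹ * (c * x * c⁻¹) * n) =
      ∑ c : G, if c ∈ (C : Set G) then θ (n⁻¹ * (c * x * c⁻¹) * n) else 0 := fun n => BET_mem_sum _ _
  simp only [h0]
  rw [BET_mem_sum, BET_mem_sum]
  have h1 : ∀ n : G, (if n ∈ (N : Set G) then
      ∑ c : G, (if c ∈ (C : Set G) then θ (n⁻¹ * (c * x * c⁻¹) * n) else 0) else 0) =
      ∑ c : G, if c ∈ (C : Set G) then (if n ∈ (N : Set G) then θ (n⁻¹ * (c * x * c⁻¹) * n) else 0)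
        else 0 := by
    intro n
    split_ifs with h
    · rfl
    · simp
  rw [Finset.sum_congr rfl fun n _ => h1 n, Finset.sum_comm]
  have h2 : ∀ c : G, (∑ n : G, if c ∈ (C : Set G) then
      (if n ∈ (N : Set G) then θ (n⁻¹ * (c * x * c⁻¹) * n) else 0) else 0) =
      if c ∈ (C : Set G) then (∑ n : G, if n ∈ (N : Set G) then θ (n * x * n⁻¹) else 0) else 0 := by
    intro c
    by_cases hc : c ∈ (C : Set G)
    · simp only [if_pos hc]
      rw [← Equiv.sum_comp ((Equiv.inv G).trans (Equiv.mulLeft c))]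
      refine Finset.sum_congr rfl fun n _ => ?_
      have h3 : ((Equiv.inv G).trans (Equiv.mulLeft c)) n = c * n⁻¹ := rfl
      rw [h3]
      have h4 : c * n⁻¹ ∈ (N : Set G) ↔ n ∈ (N : Set G) := by
        rw [SetLike.mem_coe, SetLike.mem_coe, Subgroup.mul_mem_cancel_left N (hCN hc), inv_mem_iff]
      have h5 : (c * n⁻¹)⁻¹ * (c * x * c⁻¹) * (c * n⁻¹) = n * x * n⁻¹ := by group
      rw [h5]
      exact if_congr h4 rfl rfl
    · simp only [if_neg hc, Finset.sum_const_zero]
  rw [Finset.sum_congr rfl fun c _ => h2 c, Finset.sum_ite, Finset.sum_const_zero, add_zero,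
    Finset.sum_const, nsmul_eq_mul, Nat.card_eq_fintype_card]
  congr 2
  exact (Fintype.card_subtype _).symm

theorem BET (h1 : OSM_stmt) (h2 : TTF_stmt) (h3 : NCJ_stmt) (h4 : CJG_stmt) (h5 : CLS_stmt)
    (h6 : SYL_stmt) (h7 : C3_stmt) : BET_stmt := by
  classical
  intro p M hS G _ _ D x θ χ hR hdiv
  have : Fact p.Prime := ⟨hS.pr⟩
  obtain ⟨hCT, hTN, hN, -, hTT⟩ := h2 G M D θ hR.th
  have hCN : cz D ≤ nz D := hCT.trans hTN
  have hxC : x ∈ cz D := by
    rw [Subgroup.mem_centralizer_iff]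
    intro d hd
    have e := hR.dfa.le hd
    rw [Subgroup.mem_centralizer_singleton_iff] at e
    exact e
  obtain ⟨c1, c2, c3, -, -, -, -, -, c9⟩ := h5 G (cz D) x
  have hCF : CF (cz D) (cls (cz D) x) := c2 hxC
  -- the function `h`
  let h : G → ℂ := fun n => cc (funMap (MulAut.conj n) θ) (cls (cz D) x)
  have hh : ∀ n, h n = cc θ (fun y => cls (cz D) x (n * y * n⁻¹)) := fun n => cc_funMap n θ _
  have hint : ∀ n ∈ nz D, IsIntegral ℤ (h n) := by
    intro n hn
    have e1 := (h4 G M p n (cz D)).1 θ hR.th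
    rw [(hN n hn).1] at e1
    exact c9 (cz D) le_rfl _ e1
  have hOSM : InM M ((∑ᶠ n ∈ (nz D : Set G), h n) / Nat.card (cz D)) := by
    refine h1 p M hS G (cz D) (TT M D θ) (nz D) hCT hTN hdiv h ?_ ?_ ?_
    · intro n hn
      exact IntAt.of_isIntegral hS (hint n hn)
    · intro n hn c hc
      rw [hh, hh]
      congr 1
      funext y
      have e1 := CF_conj hn hCF
      have e2 := e1.1 c hc y
      have e3 : n * c * y * (n * c)⁻¹ = n * (c * y * c⁻¹) * n⁻¹ := by group
      rw [e3]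
      exact e2
    · intro n hn t ht
      exact InM.of_mcong hS (hTT n hn t ht _ hCF c3)
  -- the orders
  have hDN : D ≤ Cz (cz D) x := by
    intro d hd
    refine Subgroup.mem_inf.2 ⟨?_, hR.dfa.le hd⟩
    rw [Subgroup.mem_centralizer_iff]
    intro c hc
    exact hR.com c hc d hd
  have hCzle : Cz (cz D) x ≤ Cz (nz D) x := inf_le_inf_right _ hCN
  obtain ⟨s1, -, -, s4, -⟩ := h6 p G
  have hpp : pp p (Cz (cz D) x) = pp p (Cz (nz D) x) := by
    have e1 := (s1 D (Cz (cz D) x) hR.dfa.pgrp hDN).1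
    have e2 := s4 _ _ hCzle
    have e3 : pp p (Cz (nz D) x) ≤ pp p (Subgroup.centralizer ({x} : Set G)) := s4 _ _ inf_le_right
    rw [← hR.dfa.card] at e3
    omega
  obtain ⟨r, hr⟩ := Subgroup.card_dvd_of_le hCzle
  have hr0 : r ≠ 0 := by
    rintro rfl
    have e1 : 0 < Nat.card (Cz (nz D) x) := Nat.card_pos
    omega
  have hC0 : Nat.card (Cz (cz D) x) ≠ 0 := Nat.card_pos.ne'
  have hpr : ¬ p ∣ r := by
    intro hpr
    have e1 : padicValNat p (Nat.card (Cz (cz D) x)) = padicValNat p (Nat.card (Cz (nz D) x)) :=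
      Nat.pow_right_injective hS.pr.two_le hpp
    rw [hr, padicValNat.mul hC0 hr0] at e1
    have e2 : 1 ≤ padicValNat p r := one_le_padicValNat_of_dvd hr0 hpr
    omega
  -- the sums
  have hE1 := BET_orb (nz D) x θ
  have hE2 : ∑ᶠ y, cls (nz D) x y * θ y = ∑ᶠ y ∈ conjugatesOf x, θ y := by
    rw [finsum_mem_def]
    refine finsum_congr fun y => ?_
    rw [Set.indicator_apply]
    by_cases hy : y ∈ cz D
    · by_cases hc : y ∈ conjugatesOf x
      · rw [if_pos hc]
        obtain ⟨l, hl⟩ := isConj_iff.1 (show IsConj x y from hc)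
        have hle : D ≤ Cz (⊤ : Subgroup G) x := by
          intro d hd
          exact ⟨Subgroup.mem_top d, hR.dfa.le hd⟩
        have hcard : Nat.card D = pp p (Cz (⊤ : Subgroup G) x) := by
          have e1 : Cz (⊤ : Subgroup G) x = Subgroup.centralizer {x} := top_inf_eq _
          rw [e1]
          exact hR.dfa.card
        obtain ⟨n, -, hn, hn2⟩ := h3 p G ⊤ D x hR.dfa.pgrp hle hcard l (Subgroup.mem_top l)
          (by rw [hl]; exact hy)
        have e1 : cls (nz D) x y = 1 := by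
          unfold cls
          rw [if_pos]
          exact ⟨n, hn, hn2.trans hl⟩
        rw [e1, one_mul]
      · rw [if_neg hc]
        have e1 : cls (nz D) x y = 0 := by
          unfold cls
          rw [if_neg]
          rintro ⟨l, -, hl⟩
          exact hc (show IsConj x y from isConj_iff.2 ⟨l, hl⟩)
        rw [e1, zero_mul]
    · rw [hR.th.1 y hy, mul_zero, ite_self]
  have hE3 : ∀ n : G, (Nat.card (Cz (cz D) x) : ℂ) * ∑ᶠ y, cls (cz D) x (n * y * n⁻¹) * θ y =
      ∑ᶠ c ∈ (cz D : Set G), θ (n⁻¹ * (c * x * c⁻¹) * n) := by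
    intro n
    have e1 := BET_orb (cz D) x (fun z => θ (n⁻¹ * z * n))
    have e4 : ∑ᶠ y, cls (cz D) x y * θ (n⁻¹ * y * n) =
        ∑ᶠ y, cls (cz D) x (n * y * n⁻¹) * θ y := by
      rw [← finsum_comp_equiv (MulAut.conj n).toEquiv]
      refine finsum_congr fun y => ?_
      have e2 : (MulAut.conj n).toEquiv y = n * y * n⁻¹ := rfl
      have e3 : n⁻¹ * (n * y * n⁻¹) * n = y := by group
      rw [e2, e3]
    rw [e1, e4]
  have hE4 := BET_dbl (cz D) (nz D) hCN x θ
  have hom : omega θ x = (∑ᶠ y ∈ conjugatesOf x, θ y) / θ 1 := rfl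
  -- `omega θ x` is in `M`
  have hkey : InM M (omega θ x) := by
    by_cases ht : θ 1 = 0
    · rw [hom, ht, div_zero]
      exact InM.zero hS
    · have e1 : (∑ᶠ n ∈ (nz D : Set G), h n) / Nat.card (cz D) = (r : ℂ) * omega θ x := by
        have e2 : ∀ n : G, (Nat.card (Cz (cz D) x) : ℂ) * θ 1 * h n =
            ∑ᶠ c ∈ (cz D : Set G), θ (n⁻¹ * (c * x * c⁻¹) * n) := by
          intro n
          rw [← hE3 n, hh]
          unfold cc
          field_simp
        have e3 : (Nat.card (Cz (cz D) x) : ℂ) * θ 1 * ∑ᶠ n ∈ (nz D : Set G), h n =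
            (Nat.card (cz D) : ℂ) * ((Nat.card (Cz (nz D) x) : ℂ) * (θ 1 * omega θ x)) := by
          have e4 : θ 1 * omega θ x = ∑ᶠ y, cls (nz D) x y * θ y := by
            rw [hom, hE2]
            field_simp
          rw [e4, ← hE1, ← hE4, mul_finsum_mem]
          refine finsum_mem_congr rfl fun n _ => e2 n
        rw [hr] at e3
        push_cast at e3
        have f1 : (Nat.card (Cz (cz D) x) : ℂ) ≠ 0 := by exact_mod_cast hC0
        have f2 : (Nat.card (cz D) : ℂ) ≠ 0 := by exact_mod_cast (Nat.card_pos.ne' : Nat.card (cz D) ≠ 0)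
        have e5 : (Nat.card (Cz (cz D) x) : ℂ) * θ 1 * ∑ᶠ n ∈ (nz D : Set G), h n =
            (Nat.card (Cz (cz D) x) : ℂ) * θ 1 * ((Nat.card (cz D) : ℂ) * ((r : ℂ) * omega θ x)) := by
          rw [e3]
          ring
        have e6 := mul_left_cancel₀ (mul_ne_zero f1 ht) e5
        rw [e6]
        field_simp
      rw [e1] at hOSM
      have e7 : IntAt M (omega θ x) := IntAt.of_isIntegral hS ((h7 G).2.2.2 (cz D) θ hR.th x)
      rcases InM.or hS (IntAt.natCast hS r) e7 hOSM with e8 | e8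
      · exact absurd ((InM.natCast hS r).1 e8) hpr
      · exact e8
  obtain ⟨a, ha, e⟩ := hR.ind x
  refine hR.dfa.ne ?_
  have e1 : omega χ x = omega θ x - ((a : integralClosure ℤ ℂ) : ℂ) := by
    rw [← e]
    ring
  rw [e1]
  exact hkey.sub hS (InM.coe hS ha)

end Pool.Agent.FI
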