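import Pool.Agent.helper95.FI.SpecA

/-! Row PRI of project fi (MP_ad8ced_nt) -/

set_option autoImplicit false

namespace Pool.Agent.FI

theorem PRI : PRI_stmt := by
  intro m ν z hm hν hz hd
  obtain ⟨r, s⟩ := z
  rw [Int.isCoprime_iff_gcd_eq_one]
  simp only at hd ⊢
  have hm0 : m ≠ 0 := by
    rintro rfl
    exact (by decide : ¬ Odd 0) hm
  obtain ⟨g, hg⟩ : ∃ g : ℕ, g = Int.gcd r s := ⟨_, rfl⟩
  obtain ⟨r', hr⟩ : (g : ℤ) ∣ r := hg ▸ Int.gcd_dvd_left r s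
  obtain ⟨s', hs⟩ : (g : ℤ) ∣ s := hg ▸ Int.gcd_dvd_right r s
  rw [← hg]
  have hmz : (m : ℤ) = (g : ℤ) * ((g : ℤ) * |r' ^ 2 - 8 * s' ^ 2|) := by
    rw [← hz]
    unfold nn N8
    rw [Int.natCast_natAbs]
    simp only
    have e : r ^ 2 - 8 * s ^ 2 = (g : ℤ) ^ 2 * (r' ^ 2 - 8 * s' ^ 2) := by
      rw [hr, hs]; ring
    rw [e, abs_mul, abs_of_nonneg (by positivity)]
    ring
  have hmz0 : (m : ℤ) ≠ 0 := by exact_mod_cast hm0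
  have hg0 : (g : ℤ) ≠ 0 := by
    intro h
    rw [h, zero_mul] at hmz
    exact hmz0 hmz
  have hk0 : |r' ^ 2 - 8 * s' ^ 2| ≠ 0 := by
    intro h
    rw [h, mul_zero, mul_zero] at hmz
    exact hmz0 hmz
  obtain ⟨D, hD⟩ : ∃ D : ℤ, D = (g : ℤ) * |r' ^ 2 - 8 * s' ^ 2| := ⟨_, rfl⟩
  rw [← hD] at hmz
  have h1 : D ∣ r' - ν * s' := by
    have h2 : (g : ℤ) * D ∣ (g : ℤ) * (r' - ν * s') := by
      rw [← hmz]
      have e : (g : ℤ) * (r' - ν * s') = r - ν * s := by rw [hr, hs]; ring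
      rw [e]
      exact hd
    exact Int.dvd_of_mul_dvd_mul_left hg0 h2
  have h3 : D ∣ ν ^ 2 - 8 := (Dvd.intro_left _ hmz.symm).trans hν
  have h4 : D ∣ r' ^ 2 - 8 * s' ^ 2 := by
    have e : r' ^ 2 - 8 * s' ^ 2 = (r' - ν * s') * (r' + ν * s') + (ν ^ 2 - 8) * s' ^ 2 := by ring
    rw [e]
    exact dvd_add (h1.mul_right _) (h3.mul_right _)
  rw [hD] at h4
  have h5 : (g : ℤ) * |r' ^ 2 - 8 * s' ^ 2| ≤ |r' ^ 2 - 8 * s' ^ 2| :=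
    Int.le_of_dvd (lt_of_le_of_ne (abs_nonneg _) hk0.symm) ((dvd_abs _ _).2 h4)
  have hk1 : 0 < |r' ^ 2 - 8 * s' ^ 2| := lt_of_le_of_ne (abs_nonneg _) hk0.symm
  have h6 : (g : ℤ) ≤ 1 := by nlinarith
  have h7 : g ≤ 1 := by exact_mod_cast h6
  have h8 : g ≠ 0 := by exact_mod_cast hg0
  omega

end Pool.Agent.FI
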