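import Pool.Agent.helper40.FI.SpecLA

/-!
# Project fi (MP_baa4d7_al), block LA: row LAF (the interface)
-/

set_option autoImplicit false

namespace Pool.Agent.FI

open Finset

open Pool.Agent.GR

theorem LAF_lg {p : ℕ} {M : Ideal (integralClosure ℤ ℂ)} {D : Type} [CommGroup D]
    {X : Type} [Fintype X] {Z : Subgroup D} {I : Subgroup (MulAut D)} {β d : X → D → ℂ} {n : D → ℤ}
    {δ : ℤ} {ε : D → ℤ} (hd : LD p M Z I β d n) (hs : LSg p Z I n δ ε) (χ : X) {u : D}
    (hu : u ∉ Z) : ((ε u * n u : ℤ) : ℂ) ≠ 0 ∧ ((ε u * n u : ℤ) : ℂ) * lg Z ε d χ u = β χ u := by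
  have h1 : ε u * ε u = 1 := by
    rcases hs.pm u with h | h <;> rw [h] <;> norm_num
  have h1' : (ε u : ℂ) * (ε u : ℂ) = 1 := by exact_mod_cast h1
  have h2 : n u ≠ 0 := by
    intro h
    refine hd.h3b u hu ?_
    rw [h]
    exact dvd_zero _
  have h3 : ε u ≠ 0 := by
    intro h
    rw [h] at h1
    simp at h1
  refine ⟨?_, ?_⟩
  · exact_mod_cast mul_ne_zero h3 h2
  · rw [lg_of_not_mem hu, hd.h3a χ u hu]
    push_cast
    linear_combination ((n u : ℂ) * d χ u) * h1'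

theorem LAF_sub {p : ℕ} {M : Ideal (integralClosure ℤ ℂ)} {D : Type} [CommGroup D] [Fintype D]
    {X : Type} [Fintype X] {Z : Subgroup D} {I : Subgroup (MulAut D)} {β d : X → D → ℂ} {n : D → ℤ}
    {δ : ℤ} {ε : D → ℤ} (hd : LD p M Z I β d n) (hs : LSg p Z I n δ ε) (l₀ : D →* ℂˣ) :
    {χ : X | ∀ z ∈ Z, ∀ u, β χ (z * u) = lv l₀ z * β χ u} ⊆ (lX Z l₀ (lg Z ε d) : Set X) := by
  intro χ hχ
  rw [Finset.mem_coe, mem_lX]
  intro z hz u
  by_cases hu : u ∈ Z
  · rw [lg_of_mem (Z.mul_mem hz hu), lg_of_mem hu, mul_zero]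
  · have hzu : z * u ∉ Z := fun h => hu ((Subgroup.mul_mem_cancel_left Z hz).1 h)
    obtain ⟨h1, h2⟩ := LAF_lg hd hs χ hu
    obtain ⟨-, h4⟩ := LAF_lg hd hs χ hzu
    rw [hs.zi z hz u hu] at h4
    have h5 : β χ (z * u) = lv l₀ z * β χ u := hχ z hz u
    refine mul_left_cancel₀ h1 ?_
    rw [h4, h5, ← h2]
    ring

theorem LAF_aux (hLEP : LEP_stmt) (hLGG : LGG_stmt) (hLC1 : LC1_stmt) (hLC2 : LC2_stmt)
    (hLC3 : LC3_stmt) (p : ℕ) (M : Ideal (integralClosure ℤ ℂ)) (D : Type) [CommGroup D] [Fintype D]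
    (X : Type) [Fintype X] (Z : Subgroup D) (I : Subgroup (MulAut D)) (β d : X → D → ℂ) (n : D → ℤ)
    (h : LAD p M Z I β d n) : LAC M Z I β d := by
  let : Fintype (D →* ℂˣ) := Fintype.ofFinite _
  have hd : LD p M Z I β d n :=
    { set := h.set
      odd := h.odd
      pg := h.pg
      ne := h.ne
      cop := h.cop
      fz := h.fz
      fr := h.fr
      h1 := h.h1
      h2 := h.h2
      h3a := h.h3a
      h3b := h.h3b
      h3c := h.h3c
      h3d := h.h3d
      h4a := by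
        intro u a hu ha
        have h1 := h.h4a u a hu ha
        rwa [finsum_eq_sum_of_fintype] at h1
      h4b := by
        intro u hu
        have h1 := h.h4b u hu
        rwa [finsum_eq_sum_of_fintype] at h1
      h5 := h.h5
      h6 := h.h6
      h7 := h.h7 }
  obtain ⟨δ, ε, hs⟩ := hLEP p M D X Z I β d n hd
  have hG : LG p Z I (lg Z ε d) := hLGG p M D X Z I β d n δ ε hd hs
  refine ⟨?_, ?_, ?_⟩
  · intro l₀ hl₀
    have h1 := hLC1 p D X Z I (lg Z ε d) l₀ hG hl₀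
    refine le_trans (Nat.mul_le_mul_left _ ?_) h1
    have h2 := Set.ncard_le_ncard (LAF_sub hd hs l₀) (Finset.finite_toSet _)
    rwa [Set.ncard_coe_finset] at h2
  · intro hI χ
    have h1 := hLC2 p D X Z I (lg Z ε d) hG hI χ
    refine le_trans h1 (le_of_eq ?_)
    rw [finsum_mem_def, finsum_eq_sum_of_fintype]
    refine Finset.sum_congr rfl fun u _ => ?_
    by_cases hu : u ∈ Z
    · rw [lg_of_mem hu, Set.indicator_of_notMem (fun h2 : u ∈ {u : D | u ∉ Z} => h2 hu)]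
      simp
    · rw [lg_of_not_mem hu, Set.indicator_of_mem (show u ∈ {u : D | u ∉ Z} from hu)]
      rcases hs.pm u with h2 | h2 <;> rw [h2] <;> simp
  · intro hZ hc χ u hu hin
    refine hLC3 p M D X Z I (lg Z ε d) h.set hG hZ hc χ u hu ?_
    have hu' : u ∉ Z := by
      rw [hZ, Subgroup.mem_bot]
      exact hu
    rw [lg_of_not_mem hu']
    exact hin.mul_left h.set (IntAt.intCast h.set _)

theorem LAF (hLEP : LEP_stmt) (hLGG : LGG_stmt) (hLC1 : LC1_stmt) (hLC2 : LC2_stmt) (hLC3 : LC3_stmt) :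
    LAF_stmt := by
  intro p M D _ _ X _ Z I β d n h
  let : Fintype D := Fintype.ofFinite D
  let : Fintype X := Fintype.ofFinite X
  exact @LAF_aux hLEP hLGG hLC1 hLC2 hLC3 p M D { (inferInstance : Group D) with mul_comm := h.com } _ X _
    Z I β d n h

end Pool.Agent.FI
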